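import Pool.Agent.H24.PN.Stmts

/-! Utilities for the standard Gaussian random walk: splitting of the coordinates, law of the
partial sums, Gaussian tail. -/

namespace PN
open MeasureTheory ProbabilityTheory PM

lemma measurable_ps {n : ℕ} (j : ℕ) : Measurable (fun g : Fin n → ℝ => ps g j) := by
  unfold ps
  refine Finset.measurable_fun_sum _ fun i _ => ?_
  split_ifs
  · exact measurable_pi_apply i
  · exact measurable_const

lemma ps_zero {n : ℕ} (g : Fin n → ℝ) : ps g 0 = 0 := by simp [ps]

lemma ps_full {n : ℕ} (g : Fin n → ℝ) : ps g n = ∑ i, g i := by simp [ps]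

lemma ps_of_le {n : ℕ} (g : Fin n → ℝ) {j : ℕ} (hj : n ≤ j) : ps g j = ∑ i, g i := by
  unfold ps
  refine Finset.sum_congr rfl fun i _ => ?_
  rw [if_pos (lt_of_lt_of_le i.2 hj)]

lemma measurable_app (m k : ℕ) :
    Measurable (fun p : (Fin m → ℝ) × (Fin k → ℝ) => Fin.append p.1 p.2) := by
  refine measurable_pi_iff.2 fun i => ?_
  refine Fin.addCases (fun i => ?_) (fun i => ?_) i
  · simp only [Fin.append_left]
    exact (measurable_pi_apply i).comp measurable_fst
  · simp only [Fin.append_right]
    exact (measurable_pi_apply i).comp measurable_snd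

/-- the first m and the last k coordinates are independent -/
lemma mp_append (m k : ℕ) :
    MeasurePreserving (fun p : (Fin m → ℝ) × (Fin k → ℝ) => Fin.append p.1 p.2)
      ((Ga (Fin m)).prod (Ga (Fin k))) (Ga (Fin (m + k))) := by
  refine ⟨measurable_app m k, ?_⟩
  unfold Ga
  refine (Measure.pi_eq fun s hs => ?_).symm
  rw [Measure.map_apply (measurable_app m k) (MeasurableSet.univ_pi hs)]
  have h : (fun p : (Fin m → ℝ) × (Fin k → ℝ) => Fin.append p.1 p.2) ⁻¹' Set.univ.pi s =
      (Set.univ.pi fun i => s (Fin.castAdd k i)) ×ˢ (Set.univ.pi fun i => s (Fin.natAdd m i)) := by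
    ext p
    simp only [Set.mem_preimage, Set.mem_pi, Set.mem_univ, true_imp_iff, Set.mem_prod]
    constructor
    · intro h
      exact ⟨fun i => by simpa using h (Fin.castAdd k i), fun i => by simpa using h (Fin.natAdd m i)⟩
    · rintro ⟨h1, h2⟩ i
      refine Fin.addCases (fun i => ?_) (fun i => ?_) i
      · simpa using h1 i
      · simpa using h2 i
  rw [h, Measure.prod_prod, Measure.pi_pi, Measure.pi_pi, Fin.prod_univ_add]

lemma lint_append (m k : ℕ) (h : (Fin (m + k) → ℝ) → ENNReal) (hh : Measurable h) :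
    ∫⁻ g, h g ∂Ga (Fin (m + k)) = ∫⁻ a, ∫⁻ b, h (Fin.append a b) ∂Ga (Fin k) ∂Ga (Fin m) := by
  rw [← (mp_append m k).lintegral_comp hh]
  exact lintegral_prod (fun p : (Fin m → ℝ) × (Fin k → ℝ) => h (Fin.append p.1 p.2))
    (hh.comp (measurable_app m k)).aemeasurable

lemma ps_append_left {m k : ℕ} (a : Fin m → ℝ) (b : Fin k → ℝ) {j : ℕ} (hj : j ≤ m) :
    ps (Fin.append a b) j = ps a j := by
  unfold ps
  rw [Fin.sum_univ_add]
  have h : ∑ i : Fin k, (if ((Fin.natAdd m i : Fin (m + k)) : ℕ) < j then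
      Fin.append a b (Fin.natAdd m i) else 0) = 0 := by
    refine Finset.sum_eq_zero fun i _ => ?_
    rw [if_neg]
    simp only [Fin.val_natAdd]
    omega
  rw [h, add_zero]
  refine Finset.sum_congr rfl fun i _ => ?_
  simp

lemma ps_append_right {m k : ℕ} (a : Fin m → ℝ) (b : Fin k → ℝ) (j : ℕ) :
    ps (Fin.append a b) (m + j) = ps a m + ps b j := by
  unfold ps
  rw [Fin.sum_univ_add]
  congr 1
  · refine Finset.sum_congr rfl fun i _ => ?_
    have := i.2
    simp only [Fin.val_castAdd, Fin.append_left]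
    rw [if_pos (by omega), if_pos this]
  · refine Finset.sum_congr rfl fun i _ => ?_
    simp

lemma measurableSet_St (n m : ℕ) (x : ℝ) (b : ℕ → ℝ) : MeasurableSet (St n m x b) := by
  unfold St
  have : {g : Fin n → ℝ | ∀ j : ℕ, 1 ≤ j → j ≤ m → ps g j ≤ x + b j} =
      ⋂ j : ℕ, ⋂ _ : 1 ≤ j, ⋂ _ : j ≤ m, {g : Fin n → ℝ | ps g j ≤ x + b j} := by
    ext g
    simp
  rw [this]
  exact MeasurableSet.iInter fun j => MeasurableSet.iInter fun _ => MeasurableSet.iInter fun _ =>
    measurableSet_le (measurable_ps j) measurable_const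

/-- events of the first m coordinates, integrals of functions of the first m coordinates -/
lemma lint_left (m k : ℕ) (h : (Fin m → ℝ) → ENNReal) (hh : Measurable h) :
    ∫⁻ g : Fin (m + k) → ℝ, h (fun i => g (Fin.castAdd k i)) ∂Ga (Fin (m + k)) =
      ∫⁻ a, h a ∂Ga (Fin m) := by
  rw [lint_append m k]
  · simp only [Fin.append_left]
    simp
  · refine hh.comp (measurable_pi_iff.2 fun i => measurable_pi_apply _)

lemma ps_castAdd {m k : ℕ} (g : Fin (m + k) → ℝ) {j : ℕ} (hj : j ≤ m) :
    ps (fun i => g (Fin.castAdd k i)) j = ps g j := by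
  unfold ps
  rw [Fin.sum_univ_add]
  have h : ∑ i : Fin k, (if ((Fin.natAdd m i : Fin (m + k)) : ℕ) < j then
      g (Fin.natAdd m i) else 0) = 0 := by
    refine Finset.sum_eq_zero fun i _ => ?_
    rw [if_neg]
    simp only [Fin.val_natAdd]
    omega
  rw [h, add_zero]
  refine Finset.sum_congr rfl fun i _ => ?_
  simp

/-- the staying event of the first m steps does not depend on the number of coordinates -/
lemma St_real {n m : ℕ} (hm : m ≤ n) (x : ℝ) (b : ℕ → ℝ) :
    (Ga (Fin n)).real (St n m x b) = (Ga (Fin m)).real (St m m x b) := by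
  obtain ⟨k, rfl⟩ := Nat.exists_eq_add_of_le hm
  unfold Measure.real
  congr 1
  rw [← (mp_append m k).measure_preimage (measurableSet_St _ _ _ _).nullMeasurableSet]
  have : (fun p : (Fin m → ℝ) × (Fin k → ℝ) => Fin.append p.1 p.2) ⁻¹' St (m + k) m x b =
      St m m x b ×ˢ Set.univ := by
    ext p
    simp only [St, Set.mem_preimage, Set.mem_ofPred_eq, Set.mem_prod, Set.mem_univ, and_true]
    constructor
    · intro h j h1 h2
      rw [← ps_append_left p.1 p.2 h2]
      exact h j h1 h2
    · intro h j h1 h2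
      rw [ps_append_left p.1 p.2 h2]
      exact h j h1 h2
  rw [this, Measure.prod_prod, measure_univ, mul_one]

/-- law of one coordinate -/
lemma map_coord {κ : Type} [Fintype κ] (k : κ) :
    (Ga κ).map (fun g => g k) = gaussianReal 0 1 := by
  unfold Ga
  exact (measurePreserving_eval (fun _ : κ => gaussianReal 0 1) k).map_eq

/-- law of the position at time n -/
lemma map_ps (n : ℕ) : (Ga (Fin n)).map (fun g => ps g n) = gaussianReal 0 n := by
  induction n with
  | zero =>
    have h : (fun g : Fin 0 → ℝ => ps g 0) = fun _ => (0 : ℝ) := by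
      funext g
      exact ps_zero g
    rw [h, Measure.map_const]
    simp
  | succ n ih =>
    have h1 : (Ga (Fin (n + 1))).map (fun g => ps g (n + 1)) =
        ((Ga (Fin n)).prod (Ga (Fin 1))).map (fun p => ps p.1 n + p.2 0) := by
      rw [← (mp_append n 1).map_eq, Measure.map_map (measurable_ps _) (measurable_app n 1)]
      congr 1
      funext p
      simp only [Function.comp_def]
      rw [ps_append_right]
      congr 1
      rw [ps_full]
      simp
    have h2 : (fun p : (Fin n → ℝ) × (Fin 1 → ℝ) => ps p.1 n + p.2 0) =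
        (fun q : ℝ × ℝ => q.1 + q.2) ∘ Prod.map (fun g : Fin n → ℝ => ps g n)
          (fun g : Fin 1 → ℝ => g 0) := by
      funext p
      simp
    rw [h1, h2, ← Measure.map_map measurable_add
      ((measurable_ps n).prodMap (measurable_pi_apply 0)),
      ← Measure.map_prod_map _ _ (measurable_ps n) (measurable_pi_apply 0), ih, map_coord]
    have h3 := gaussianReal_conv_gaussianReal (m₁ := 0) (m₂ := 0) (v₁ := (n : NNReal)) (v₂ := 1)
    rw [Measure.conv] at h3
    rw [h3]
    simp

/-- functions of the position at time n -/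
lemma lint_ps (n : ℕ) (h : ℝ → ENNReal) (hh : Measurable h) :
    ∫⁻ g : Fin n → ℝ, h (ps g n) ∂Ga (Fin n) = ∫⁻ s, h s ∂gaussianReal 0 n := by
  rw [← map_ps n, lintegral_map hh (measurable_ps n)]

/-- Gaussian tail -/
lemma gauss_tail {t : ℝ} (ht : 0 ≤ t) :
    gaussianReal 0 1 (Set.Ici t) ≤ ENNReal.ofReal (Real.exp (-t ^ 2 / 2)) := by
  have h := measure_ge_le_exp_mul_mgf (μ := gaussianReal 0 1) (X := fun x : ℝ => x) t ht
    (by
      have := integrable_exp_mul_gaussianReal (μ := 0) (v := 1) t
      exact this)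
  have h2 : mgf (fun x : ℝ => x) (gaussianReal 0 1) t = Real.exp (t ^ 2 / 2) := by
    have := mgf_gaussianReal (p := gaussianReal 0 1) (X := fun x : ℝ => x) (μ := 0) (v := 1)
      (by exact Measure.map_id) t
    rw [this]
    simp
  rw [h2, ← Real.exp_add] at h
  have h3 : Measure.real (gaussianReal 0 1) {ω : ℝ | t ≤ ω} ≤ Real.exp (-t ^ 2 / 2) := by
    refine h.trans (le_of_eq ?_)
    congr 1
    ring
  have h4 : gaussianReal 0 1 (Set.Ici t) = ENNReal.ofReal
      (Measure.real (gaussianReal 0 1) {ω : ℝ | t ≤ ω}) := by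
    rw [Measure.real, ENNReal.ofReal_toReal (measure_ne_top _ _)]
    rfl
  rw [h4]
  exact ENNReal.ofReal_le_ofReal h3

end PN
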